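import Pool.Agent.KS6_64.RO.Final

/-!
# The order of magnitude of the number of all points of bounded radical over a number field

`K` is a number field of degree `d`. For a point `P = (a : b : c)` over `K` with `a + b + c = 0` and
`abc ≠ 0` let `h(P)` be its (absolute logarithmic) height and `rad(P)` its radical, the sum of
`log N(v) / d` over the primes `v` of `K` at which `a, b, c` do not have the same valuation. Always
`rad(P) ≤ 3 h(P)`, and the abc conjecture says `h(P) ≤ (1 + ε) rad(P) + C(K, ε)`.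

Let the points be ordered by their radical, without any restriction on their height. We determine
the order of magnitude of the number of the points with `exp rad ≤ X`: it lies between two
positive constants times `X ^ (2 d / 3)`. Almost all of these points satisfy `h(P) = rad(P) / 3 + O(1)`,
and the proportion of those with `h(P) ≥ rad(P) / 3 + u` is at most a constant times
`exp (- (1 - δ) d u) + X ^ (-ν)` and at least a constant times `exp (- d u)`, uniformly in `u`.

Proof. For the points of height at most `(1/3 + η) rad` the deficiency `3 h - rad` is the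
contribution of a product of powers of ideals and of the distance to the maximal absolute values;
the points are counted in cells: for given divisors `D_i` of `a, b, c` of total norm at least
`exp (t)` they lie in a lattice of covolume the product of the norms, and the sum over the `D_i`
converges with an exponential gain, since the divisors contribute with their radical. For the
points of larger height we use the library's theorem on almost all points
(`Pool.Graph.R_seed8.Results.MP_a793bb_nt.AlmostAllPoints`), which has a power saving, and linear forms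
in logarithms for the very large heights. The lower bound comes from the points with a coordinate
divisible by a given power of a fixed prime.
-/

set_option autoImplicit false

namespace Pool.Agent.Results.MP_a793bb_nt.ExactOrderByRadical

open NumberField IsDedekindDomain Module

variable {K : Type} [Field K] [NumberField K]

/-- The height `h(P)` of the point `P = (x₀ : x₁ : x₂)`. -/
noncomputable def height (x : Fin 3 → K) : ℝ :=
  (∑ w : InfinitePlace K, (w.mult : ℝ) * Real.log (max (w (x 0)) (max (w (x 1)) (w (x 2)))) +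
    ∑ᶠ v : HeightOneSpectrum (𝓞 K), Real.log
      (max (FinitePlace.mk v (x 0)) (max (FinitePlace.mk v (x 1)) (FinitePlace.mk v (x 2))))) /
    (finrank ℚ K : ℝ)

/-- The radical of the point `P = (x₀ : x₁ : x₂)`: the sum of `log N(v) / d` over the primes `v` of `K`
at which the valuations of the coordinates are not all equal. -/
noncomputable def rad (x : Fin 3 → K) : ℝ :=
  (∑ᶠ (v : HeightOneSpectrum (𝓞 K)) (_ : ¬ (FinitePlace.mk v (x 0) = FinitePlace.mk v (x 1) ∧
        FinitePlace.mk v (x 1) = FinitePlace.mk v (x 2))),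
    Real.log (Ideal.absNorm v.asIdeal : ℝ)) / (finrank ℚ K : ℝ)

/-- The points `P = (a : b : c)` over `K` with `a + b + c = 0` and `abc ≠ 0` whose height `h` and
radical `r` satisfy the condition `c h r`. -/
def Points (K : Type) [Field K] [NumberField K] (c : ℝ → ℝ → Prop) :
    Set (Projectivization K (Fin 3 → K)) :=
  {P | ∃ (x : Fin 3 → K) (hx : x ≠ 0), P = Projectivization.mk K x hx ∧ x 0 + x 1 + x 2 = 0 ∧
    x 0 * x 1 * x 2 ≠ 0 ∧ c (height x) (rad x)}

/-- **The number of all points of bounded radical, and the distribution of their heights.**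
Let `K` be a number field of degree `d`.
(1) `rad ≤ 3 h` for all points.
(2) The number of points of radical at most `log X`, of whatever height, lies between
`c X ^ (2 d / 3)` and `C X ^ (2 d / 3)`.
(3) For every `η > 0` there is `U` such that for large `X` all but `η` times their number satisfy
`rad / 3 ≤ h ≤ rad / 3 + U`.
(4) For every `δ > 0` there is `ν > 0` such that at most
`C X ^ (2 d / 3) (exp (- (1 - δ) d u) + X ^ (-ν))` of them satisfy `h ≥ rad / 3 + u`, for all `u ≥ 0`.
(5) At least `c X ^ (2 d / 3) exp (- d u)` of them satisfy `h ≥ rad / 3 + u`, for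
`0 ≤ u ≤ log X / 6 - C`. -/
theorem result : ∀ (K : Type) [Field K] [NumberField K],
    (∀ x : Fin 3 → K, x 0 + x 1 + x 2 = 0 → x 0 * x 1 * x 2 ≠ 0 → rad x ≤ 3 * height x) ∧
    (∃ c C X₀ : ℝ, 0 < c ∧ ∀ X : ℝ, X₀ ≤ X → (Points K fun _ r => Real.exp r ≤ X).Finite ∧
      c * X ^ (2 / 3 * (finrank ℚ K : ℝ)) ≤ ((Points K fun _ r => Real.exp r ≤ X).ncard : ℝ) ∧
      ((Points K fun _ r => Real.exp r ≤ X).ncard : ℝ) ≤ C * X ^ (2 / 3 * (finrank ℚ K : ℝ))) ∧
    (∀ η : ℝ, 0 < η → ∃ U X₀ : ℝ, ∀ X : ℝ, X₀ ≤ X →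
      ((Points K fun h r => Real.exp r ≤ X ∧ ¬ (r / 3 ≤ h ∧ h ≤ r / 3 + U)).ncard : ℝ) ≤
        η * ((Points K fun _ r => Real.exp r ≤ X).ncard : ℝ)) ∧
    (∀ δ : ℝ, 0 < δ → ∃ ν C : ℝ, 0 < ν ∧ 0 < C ∧ ∀ X u : ℝ, 1 ≤ X → 0 ≤ u →
      ((Points K fun h r => Real.exp r ≤ X ∧ r / 3 + u ≤ h).ncard : ℝ) ≤
        C * X ^ (2 / 3 * (finrank ℚ K : ℝ)) *
          (Real.exp (-((1 - δ) * (finrank ℚ K : ℝ) * u)) + X ^ (-ν))) ∧
    (∃ c C : ℝ, 0 < c ∧ 0 < C ∧ ∀ X u : ℝ, 1 ≤ X → 0 ≤ u → u + C ≤ Real.log X / 6 →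
      c * X ^ (2 / 3 * (finrank ℚ K : ℝ)) * Real.exp (-((finrank ℚ K : ℝ) * u)) ≤
        ((Points K fun h r => Real.exp r ≤ X ∧ r / 3 + u ≤ h).ncard : ℝ)) := by
  intro K _ _
  have hle : ∀ x : Fin 3 → K, x 0 + x 1 + x 2 = 0 → x 0 * x 1 * x 2 ≠ 0 → rad x ≤ 3 * height x :=
    fun x hs hne => Pool.Agent.KS6_64.RO.rad_le K x hs hne
  refine ⟨hle, ?_, ?_, ?_, Pool.Agent.KS6_64.RO.byRadical_lower K⟩
  · obtain ⟨C, hC, hup⟩ := Pool.Agent.KS6_64.RO.byRadical_all K
    obtain ⟨c, C₁, hc, hC₁, hlo⟩ := Pool.Agent.KS6_64.RO.byRadical_lower K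
    obtain ⟨X₁, hX₁⟩ := Filter.eventually_atTop.1 ((Filter.eventually_ge_atTop (1 : ℝ)).and
      (Real.tendsto_log_atTop.eventually_ge_atTop (6 * C₁)))
    refine ⟨c, C, X₁, hc, fun X hX => ?_⟩
    obtain ⟨a2, a3⟩ := hX₁ X hX
    obtain ⟨h1, h2⟩ := hup X a2
    refine ⟨h1, ?_, h2⟩
    have b3 := hlo X 0 a2 le_rfl (by linarith)
    rw [mul_zero, neg_zero, Real.exp_zero, mul_one] at b3
    refine b3.trans ?_
    have hs : (Pool.Agent.KS6_64.RO.Pts K fun h r => Real.exp r ≤ X ∧ r / 3 + 0 ≤ h) ⊆
        (Pool.Agent.KS6_64.RO.Pts K fun _ r => Real.exp r ≤ X) :=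
      Pool.Agent.KS6_64.RO.Pts_mono K fun a b h => h.1
    exact_mod_cast Set.ncard_le_ncard hs h1
  · intro η hη
    obtain ⟨U, X₀, h⟩ := Pool.Agent.KS6_64.RO.almost_all K η hη
    refine ⟨U, X₀, fun X hX => ?_⟩
    have e : (Points K fun h r => Real.exp r ≤ X ∧ ¬ (r / 3 ≤ h ∧ h ≤ r / 3 + U)) =
        (Pool.Agent.KS6_64.RO.Pts K fun h r => Real.exp r ≤ X ∧ r / 3 + U < h) := by
      ext P
      constructor
      · rintro ⟨x, hx, h1, h2, h3, h4, h5⟩
        refine ⟨x, hx, h1, h2, h3, h4, ?_⟩
        have h6 := hle x h2 h3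
        by_contra h7
        exact h5 ⟨by linarith, not_lt.1 h7⟩
      · rintro ⟨x, hx, h1, h2, h3, h4, h5⟩
        exact ⟨x, hx, h1, h2, h3, h4, fun h6 => absurd h5 (not_lt.2 h6.2)⟩
    rw [e]
    exact h X hX
  · intro δ hδ
    obtain ⟨ν, C, hν, hC, h⟩ := Pool.Agent.KS6_64.RO.byRadical_upper K hδ
    exact ⟨ν, C, hν, hC, fun X u hX hu => (h X u hX hu).2⟩

end Pool.Agent.Results.MP_a793bb_nt.ExactOrderByRadical
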