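import Pool.Agent.KS6_64.RO.SecM

/-!
# The number of all points of bounded radical with `h ≥ rad / 3 + u`: the second order term

`K` is a number field of degree `d`. For a point `P = (a : b : c)` over `K` with `a + b + c = 0` and
`abc ≠ 0` let `h(P)` be its (absolute logarithmic) height and `rad(P)` its radical. Always
`h(P) ≥ rad(P) / 3`; the abc conjecture bounds `h(P)` from above by `(1 + ε) rad(P) + C(K, ε)`.

We determine, up to the second order term, how many points have a height larger than `rad / 3` by a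
given amount, when the points are ordered by their radical and there is no restriction on the
height, uniformly in the amount:

  `log #{P : rad(P) ≤ log X, h(P) ≥ rad(P) / 3 + u} = (2/3) d log X - d u + (√(72 d) + o(1)) √(u / log u)`

for `u → ∞`, `u ≤ κ₀ log X`; for a proportion `M` instead of the amount `u` this is

  `log #{P : rad(P) ≤ log X, h(P) ≥ M rad(P)} = d (1 - M) log X + (√(24 (3 M - 1) d) + o(1)) √(log X / log log X)`

for `1/3 < M < M₀`. For the points ordered by their height we get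

  `log #{P : h(P) ≤ log B, rad(P) ≤ 3 h(P) - t} = 2 d log B - d t + (√(24 d) + o(1)) √(t / log t)`

for `t → ∞`, uniformly in `t ≤ κ log B`, for every `κ < 1`.

The leading exponents for `u` and `t` proportional to `log X` and `log B` are those of the library's
`ExceptionExponent` and `ExceptionsAtEveryLevel`; the last formula for `t = κ h` is its `SecondOrderTerm`.
The proof of the last formula follows that of `SecondOrderTerm`, with all parameters depending on
`t` instead of `log B`. The points of bounded radical are cut according to their height, and those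
with `h ≥ (2/5) log X` are estimated by the theorem on almost all points of the library
(`AlmostAllPoints`).
-/

set_option autoImplicit false

namespace Pool.Agent.Results.MP_a793bb_nt.SecondOrderAllHeights

open NumberField IsDedekindDomain Module Filter Topology

variable {K : Type} [Field K] [NumberField K]

/-- The height `h(P)` of the point `P = (x₀ : x₁ : x₂)`. -/
noncomputable def height (x : Fin 3 → K) : ℝ :=
  (∑ w : InfinitePlace K, (w.mult : ℝ) * Real.log (max (w (x 0)) (max (w (x 1)) (w (x 2)))) +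
    ∑ᶠ v : HeightOneSpectrum (𝓞 K), Real.log
      (max (FinitePlace.mk v (x 0)) (max (FinitePlace.mk v (x 1)) (FinitePlace.mk v (x 2))))) /
    (finrank ℚ K : ℝ)

/-- The radical of the point `P = (x₀ : x₁ : x₂)`: the sum of `log N(v) / d` over the primes `v` of `K`
at which the valuations of the coordinates are not all equal. -/
noncomputable def rad (x : Fin 3 → K) : ℝ :=
  (∑ᶠ (v : HeightOneSpectrum (𝓞 K)) (_ : ¬ (FinitePlace.mk v (x 0) = FinitePlace.mk v (x 1) ∧
        FinitePlace.mk v (x 1) = FinitePlace.mk v (x 2))),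
    Real.log (Ideal.absNorm v.asIdeal : ℝ)) / (finrank ℚ K : ℝ)

/-- The points `P = (a : b : c)` over `K` with `a + b + c = 0` and `abc ≠ 0` whose height `h` and
radical `r` satisfy the condition `c h r`. -/
def Points (K : Type) [Field K] [NumberField K] (c : ℝ → ℝ → Prop) :
    Set (Projectivization K (Fin 3 → K)) :=
  {P | ∃ (x : Fin 3 → K) (hx : x ≠ 0), P = Projectivization.mk K x hx ∧ x 0 + x 1 + x 2 = 0 ∧
    x 0 * x 1 * x 2 ≠ 0 ∧ c (height x) (rad x)}

theorem Sq_eq {t : ℝ} : Pool.Agent.KS6_64.RO.Sq t = √24 * √(t / Real.log t) := by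
  unfold Pool.Agent.KS6_64.RO.Sq
  rw [← Real.sqrt_mul (by norm_num)]
  congr 1
  ring

theorem abs_of {D Y t ε ε' : ℝ} (hD : 0 < D) (hε' : ε' = min 1 (ε / √(24 * D)))
    (h1 : (1 - ε') * (√D * Pool.Agent.KS6_64.RO.Sq t) ≤ Y)
    (h2 : Y ≤ (1 + ε') * (√D * Pool.Agent.KS6_64.RO.Sq t)) :
    |Y - √(24 * D) * √(t / Real.log t)| ≤ ε * √(t / Real.log t) := by
  have h3 : √D * Pool.Agent.KS6_64.RO.Sq t = √(24 * D) * √(t / Real.log t) := by
    rw [Sq_eq, ← mul_assoc, ← Real.sqrt_mul hD.le]
    congr 2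
    ring
  rw [h3] at h1 h2
  have h4 : 0 < √(24 * D) := Real.sqrt_pos.2 (by positivity)
  have h5 : 0 ≤ √(t / Real.log t) := Real.sqrt_nonneg _
  have h6 : ε' * (√(24 * D) * √(t / Real.log t)) ≤ ε * √(t / Real.log t) := by
    rw [← mul_assoc]
    apply mul_le_mul_of_nonneg_right _ h5
    have h7 : ε' ≤ ε / √(24 * D) := by rw [hε']; exact min_le_right _ _
    rwa [le_div_iff₀ h4] at h7
  rw [abs_le]
  constructor <;> linarith

theorem eps_pos {D ε : ℝ} (hD : 0 < D) (hε : 0 < ε) :
    0 < min 1 (ε / √(24 * D)) ∧ min 1 (ε / √(24 * D)) ≤ 1 := by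
  have h4 : 0 < √(24 * D) := Real.sqrt_pos.2 (by positivity)
  exact ⟨lt_min one_pos (by positivity), min_le_left _ _⟩

/-- **The second order term, for all heights.** Let `K` be a number field of degree `d`.
(1) There is `κ₀ > 0` such that for every `ε > 0`, all sufficiently large `u` and all `X` with
`u ≤ κ₀ log X` the number `N` of all points with `exp rad ≤ X` and `h ≥ rad / 3 + u` is finite and
`log N` differs from `(2/3) d log X - d u + √(72 d) √(u / log u)` by at most `ε √(u / log u)`.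
(2) There is `M₀ > 1/3` such that for `1/3 < M < M₀` the number `N(X)` of all points with `exp rad ≤ X`
and `h ≥ M rad` is finite and `(log N(X) - d (1 - M) log X) / √(log X / log log X)` tends to
`√(24 (3 M - 1) d)` for `X → ∞`.
(3) For every `κ` in `(0, 1)`, every `ε > 0`, all sufficiently large `t` and all `B` with
`t ≤ κ log B` the number `N` of the points with `exp h ≤ B` and `rad ≤ 3 h - t` is finite and `log N`
differs from `2 d log B - d t + √(24 d) √(t / log t)` by at most `ε √(t / log t)`. -/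
theorem result : ∀ (K : Type) [Field K] [NumberField K],
    (∃ κ₀ : ℝ, 0 < κ₀ ∧ ∀ ε : ℝ, 0 < ε → ∃ u₀ : ℝ, ∀ X u : ℝ, 1 ≤ X → u₀ ≤ u →
      u ≤ κ₀ * Real.log X →
      (Points K fun h r => Real.exp r ≤ X ∧ r / 3 + u ≤ h).Finite ∧
      |Real.log ((Points K fun h r => Real.exp r ≤ X ∧ r / 3 + u ≤ h).ncard : ℝ) -
          (2 / 3 * (finrank ℚ K : ℝ) * Real.log X - (finrank ℚ K : ℝ) * u) -
          √(72 * (finrank ℚ K : ℝ)) * √(u / Real.log u)| ≤ ε * √(u / Real.log u)) ∧
    (∃ M₀ : ℝ, 1 / 3 < M₀ ∧ ∀ M : ℝ, 1 / 3 < M → M < M₀ →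
      (∀ X : ℝ, (Points K fun h r => Real.exp r ≤ X ∧ M * r ≤ h).Finite) ∧
      Tendsto (fun X : ℝ =>
        (Real.log ((Points K fun h r => Real.exp r ≤ X ∧ M * r ≤ h).ncard : ℝ) -
          (finrank ℚ K : ℝ) * (1 - M) * Real.log X) / √(Real.log X / Real.log (Real.log X)))
        atTop (𝓝 √(24 * ((3 * M - 1) * (finrank ℚ K : ℝ))))) ∧
    (∀ κ ε : ℝ, 0 < κ → κ < 1 → 0 < ε → ∃ t₀ : ℝ, ∀ B t : ℝ, 1 ≤ B → t₀ ≤ t →
      t ≤ κ * Real.log B →
      (Points K fun h r => Real.exp h ≤ B ∧ r + t ≤ 3 * h).Finite ∧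
      |Real.log ((Points K fun h r => Real.exp h ≤ B ∧ r + t ≤ 3 * h).ncard : ℝ) -
          (2 * (finrank ℚ K : ℝ) * Real.log B - (finrank ℚ K : ℝ) * t) -
          √(24 * (finrank ℚ K : ℝ)) * √(t / Real.log t)| ≤ ε * √(t / Real.log t)) := by
  intro K _ _
  have hd : (0 : ℝ) < finrank ℚ K := by exact_mod_cast (finrank_pos (R := ℚ) (M := K))
  refine ⟨?_, ?_, ?_⟩
  · obtain ⟨κ₀, hκ₀, h⟩ := Pool.Agent.KS6_64.RO.byRadical2 K
    refine ⟨κ₀, hκ₀, fun ε hε => ?_⟩
    have h3 : (0 : ℝ) < 3 * finrank ℚ K := by positivity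
    obtain ⟨e1, e2⟩ := eps_pos h3 hε
    obtain ⟨u₀, -, h⟩ := h _ e1 e2
    refine ⟨u₀, fun X u hX hu huX => ?_⟩
    obtain ⟨g1, g2, g3⟩ := h X u hX hu huX
    refine ⟨g1, ?_⟩
    have e : (72 : ℝ) * (finrank ℚ K : ℝ) = 24 * (3 * (finrank ℚ K : ℝ)) := by ring
    rw [e]
    exact abs_of h3 rfl g2 g3
  · obtain ⟨M₀, hM₀, h⟩ := Pool.Agent.KS6_64.RO.exceptions2 K
    refine ⟨M₀, hM₀, fun M hM1 hM2 => ⟨fun X => ?_, ?_⟩⟩
    · obtain ⟨C, -, hC⟩ := Pool.Agent.KS6_64.RO.byRadical_all K
      refine (hC (max X 1) (le_max_right _ _)).1.subset ?_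
      rintro P ⟨x, hx, a1, a2, a3, a4⟩
      exact ⟨x, hx, a1, a2, a3, a4.1.trans (le_max_left _ _)⟩
    · have h3 : (0 : ℝ) < (3 * M - 1) * finrank ℚ K := mul_pos (by linarith) hd
      rw [Metric.tendsto_atTop]
      intro ε hε
      obtain ⟨e1, e2⟩ := eps_pos h3 (half_pos hε)
      obtain ⟨X₀, hX₀, h⟩ := h M _ hM1 hM2 e1 e2
      refine ⟨max X₀ (Real.exp (Real.exp 1)), fun X hX => ?_⟩
      obtain ⟨-, g2, g3⟩ := h X ((le_max_left _ _).trans hX)
      have g4 := abs_of h3 rfl g2 g3
      have hX1 : Real.exp (Real.exp 1) ≤ X := (le_max_right _ _).trans hX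
      have hX2 : Real.exp 1 ≤ Real.log X :=
        (Real.le_log_iff_exp_le ((Real.exp_pos _).trans_le hX1)).2 hX1
      have hX3 : 1 ≤ Real.log (Real.log X) :=
        (Real.le_log_iff_exp_le ((Real.exp_pos _).trans_le hX2)).2 hX2
      have hs : 0 < √(Real.log X / Real.log (Real.log X)) := by
        apply Real.sqrt_pos.2
        have := (Real.exp_pos 1).trans_le hX2
        positivity
      rw [Real.dist_eq]
      have e : ∀ Y w s : ℝ, 0 < s → Y / s - w = (Y - w * s) / s := by
        intro Y w s hs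
        field_simp
      rw [e _ _ _ hs, abs_div, abs_of_pos hs, div_lt_iff₀ hs]
      refine g4.trans_lt ?_
      apply mul_lt_mul_of_pos_right _ hs
      linarith
  · intro κ ε hκ0 hκ1 hε
    obtain ⟨e1, e2⟩ := eps_pos hd hε
    obtain ⟨t₀, -, h⟩ := Pool.Agent.KS6_64.RO.byHeight2 K hκ0 hκ1 e1 e2
    refine ⟨t₀, fun B t hB ht htB => ?_⟩
    obtain ⟨g1, g2, g3⟩ := h B t hB ht htB
    exact ⟨g1, abs_of hd rfl g2 g3⟩

end Pool.Agent.Results.MP_a793bb_nt.SecondOrderAllHeights
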